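import Pool.Agent.helper90.DH.SpecI

set_option autoImplicit false

open Filter Topology MeasureTheory
open scoped commutatorElement

namespace Pool.Agent.helper90.DH

open Pool.Agent.helper64.D2

theorem BPE : BPE_stmt := by
  let f : ContDiffBump (1 / 2 : ℝ) := ⟨1 / 2, 3 / 2, by norm_num, by norm_num⟩
  refine ⟨f, f.contDiff, fun x => ⟨f.nonneg, f.le_one⟩, fun x hx => ?_, fun x hx => ?_⟩
  · apply f.one_of_mem_closedBall
    rw [Metric.mem_closedBall, Real.dist_eq, abs_le]
    show -(1 / 2 : ℝ) ≤ x - 1 / 2 ∧ x - 1 / 2 ≤ 1 / 2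
    constructor <;> linarith [hx.1, hx.2]
  · apply f.zero_of_le_dist
    rw [Real.dist_eq]
    show (3 / 2 : ℝ) ≤ |x - 1 / 2|
    by_contra hcon
    push Not at hcon
    rw [abs_lt] at hcon
    exact hx ⟨by linarith [hcon.1], by linarith [hcon.2]⟩

end Pool.Agent.helper90.DH
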